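import Mathlib

/-!
# Polynomial Freiman-Ruzsa for images of box-anchored sets

A finite set `S ⊂ Z^n` is box-anchored if with every `x` it contains all integer points of the
coordinate box spanned by `0` and `x`. Definitions and the statements of the tasks.
-/

set_option autoImplicit false
open Finset
open scoped Pointwise

namespace H947DS

/-- number of non-zero coordinates of a natural vector -/
def nz {n : ℕ} (x : Fin n → ℕ) : ℕ := (univ.filter (fun i => x i ≠ 0)).card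

/-- number of non-zero coordinates of an integer vector -/
def nzZ {n : ℕ} (x : Fin n → ℤ) : ℕ := (univ.filter (fun i => x i ≠ 0)).card

/-- box-anchored sets -/
def BoxAnchored {n : ℕ} (S : Finset (Fin n → ℤ)) : Prop :=
  ∀ x ∈ S, ∀ y : Fin n → ℤ, (∀ i, (0 ≤ y i ∧ y i ≤ x i) ∨ (x i ≤ y i ∧ y i ≤ 0)) → y ∈ S

/-- the weights `1, 1/4, 1/4, ...` -/
noncomputable def u (i : ℕ) : ℝ := if i = 0 then 1 else 1 / 4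

def St_W : Prop := ∀ k : ℕ,
  ∑ p ∈ HasAntidiagonal.antidiagonal k, u p.1 * u p.2 / (Real.sqrt (p.1 + 1) * Real.sqrt (p.2 + 1)) ≤ 1

def St_ONE : Prop := ∀ (N : ℕ) (a b M : ℕ → ℝ), (∀ i, 0 ≤ a i) → (∀ i, 0 ≤ b i) →
  (∀ k, 0 ≤ M k) →
  (∀ i j, a i * b j * (Real.sqrt (i + 1) * Real.sqrt (j + 1)) ≤ M (i + j)) →
  (∑ i ∈ range N, u i * a i) * (∑ j ∈ range N, u j * b j) ≤ ∑ k ∈ range (2 * N), M k

def St_A : Prop := ∀ (n : ℕ) (A B : Finset (Fin n → ℕ)) (F G : ℝ), A.Nonempty → B.Nonempty →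
  (∀ x ∈ A, ∏ i, ((x i : ℝ) + 1) ≤ F) → (∀ x ∈ B, ∏ i, ((x i : ℝ) + 1) ≤ G) →
  (∑ x ∈ A, (1 / 4 : ℝ) ^ (nz x)) * (∑ x ∈ B, (1 / 4 : ℝ) ^ (nz x)) ≤
    ((A + B).card : ℝ) * Real.sqrt (F * G)

def St_I : Prop := ∀ (n : ℕ) (S : Finset (Fin n → ℤ)), BoxAnchored S →
  ∑ x ∈ S, 2 ^ (nzZ x) ≤ (S + S).card

def St_ORTH : Prop := ∀ (n d : ℕ) (T : Finset (Fin n → ℤ)), (∀ x ∈ T, nzZ x ≤ d) →
  ∃ σ : Fin n → ℤ, (∀ i, σ i = 1 ∨ σ i = -1) ∧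
    T.card ≤ 2 ^ d * (T.filter (fun x => ∀ i, 0 ≤ σ i * x i)).card

def St_BOX : Prop := ∀ (n : ℕ) (S : Finset (Fin n → ℤ)) (K : ℝ), S.Nonempty → BoxAnchored S →
  ((S + S).card : ℝ) ≤ K * S.card →
  ∃ x ∈ S, (2 : ℝ) ^ (nzZ x) ≤ 2 * K ∧
    (S.card : ℝ) ≤ 256 * K ^ 7 * ∏ i, (|(x i : ℝ)| + 1)

def St_COV : Prop := ∀ (n : ℕ) (S : Finset (Fin n → ℤ)) (K : ℝ) (x : Fin n → ℤ), S.Nonempty →
  BoxAnchored S → ((S + S).card : ℝ) ≤ K * S.card → x ∈ S → (2 : ℝ) ^ (nzZ x) ≤ 2 * K →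
  (S.card : ℝ) ≤ 256 * K ^ 7 * ∏ i, (|(x i : ℝ)| + 1) →
  ∃ T : Finset (Fin n → ℤ), (T.card : ℝ) ≤ 1024 * K ^ 10 ∧
    ∀ s ∈ S, ∃ t ∈ T, ∀ i, |s i - t i| ≤ |x i| / 2

/-- the part of `Z^n` supported on the non-zero coordinates of `x` as lattice points of a box -/
def St_PROG : Prop := ∀ (n : ℕ) (x : Fin n → ℤ), ∃ (B : Set (Fin (nzZ x) → ℝ))
  (ψ : (Fin (nzZ x) → ℤ) →+ (Fin n → ℤ)),
  Convex ℝ B ∧ IsCompact B ∧ (interior B).Nonempty ∧ (∀ y ∈ B, -y ∈ B) ∧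
  {z : Fin (nzZ x) → ℤ | (fun i => (z i : ℝ)) ∈ B}.Finite ∧
  (({z : Fin (nzZ x) → ℤ | (fun i => (z i : ℝ)) ∈ B}.ncard : ℕ) : ℤ) ≤ ∏ i, (|x i| + 1) ∧
  ∀ v : Fin n → ℤ, (∀ i, |v i| ≤ |x i| / 2) →
    ∃ z : Fin (nzZ x) → ℤ, (fun i => (z i : ℝ)) ∈ B ∧ ψ z = v

end H947DS
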