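import Mathlib
import Pool.Agent.H947R2.DS.Stubs

set_option autoImplicit false
open Finset
open scoped Pointwise

namespace H947DS

theorem nz_succ {n : ℕ} (x : Fin (n + 1) → ℕ) :
    nz x = (if x 0 = 0 then 0 else 1) + nz (Fin.tail x) := by
  unfold nz
  rw [Finset.card_filter, Finset.card_filter, Fin.sum_univ_succ]
  congr 1
  by_cases h : x 0 = 0 <;> simp [h]

/-- slices in the first coordinate -/
def slice {n : ℕ} (A : Finset (Fin (n + 1) → ℕ)) (i : ℕ) : Finset (Fin n → ℕ) :=
  (A.filter (fun x => x 0 = i)).image Fin.tail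

theorem mem_slice {n : ℕ} (A : Finset (Fin (n + 1) → ℕ)) (i : ℕ) (y : Fin n → ℕ) :
    y ∈ slice A i ↔ (Fin.cons i y : Fin (n + 1) → ℕ) ∈ A := by
  unfold slice
  rw [Finset.mem_image]
  constructor
  · rintro ⟨x, hx, rfl⟩
    rw [Finset.mem_filter] at hx
    obtain ⟨hx, rfl⟩ := hx
    rw [Fin.cons_self_tail]
    exact hx
  · intro hy
    refine ⟨_, Finset.mem_filter.mpr ⟨hy, ?_⟩, ?_⟩
    · simp
    · simp

theorem sum_slice {n : ℕ} (A : Finset (Fin (n + 1) → ℕ)) (N : ℕ) (hN : ∀ x ∈ A, x 0 < N) :
    ∑ x ∈ A, (1 / 4 : ℝ) ^ (nz x)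
      = ∑ i ∈ range N, u i * ∑ y ∈ slice A i, (1 / 4 : ℝ) ^ (nz y) := by
  rw [← Finset.sum_fiberwise_of_maps_to (g := fun x : Fin (n + 1) → ℕ => x 0) (t := range N)
    (fun x hx => Finset.mem_range.mpr (hN x hx))]
  apply Finset.sum_congr rfl
  intro i _
  unfold slice
  rw [Finset.sum_image, Finset.mul_sum]
  · apply Finset.sum_congr rfl
    intro x hx
    rw [Finset.mem_filter] at hx
    rw [nz_succ, pow_add]
    congr 1
    unfold u
    rw [← hx.2]
    by_cases h : x 0 = 0 <;> simp [h]
  · intro x hx y hy hxy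
    rw [Finset.mem_coe, Finset.mem_filter] at hx hy
    rw [← Fin.cons_self_tail x, ← Fin.cons_self_tail y, hxy, hx.2, hy.2]

theorem A_proof (h : St_ONE) : St_A := by
  intro n
  induction n with
  | zero =>
    intro A B F G hA hB hF hG
    obtain ⟨a, ha⟩ := hA
    obtain ⟨b, hb⟩ := hB
    have hA' : A = {a} := by
      ext x
      rw [Finset.mem_singleton]
      exact ⟨fun _ => Subsingleton.elim _ _, fun h => h ▸ ha⟩
    have hB' : B = {b} := by
      ext x
      rw [Finset.mem_singleton]
      exact ⟨fun _ => Subsingleton.elim _ _, fun h => h ▸ hb⟩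
    have h1 := hF a ha
    have h2 := hG b hb
    simp only [Finset.univ_eq_empty, Finset.prod_empty] at h1 h2
    have h3 : (1 : ℝ) ≤ Real.sqrt (F * G) := by
      rw [Real.one_le_sqrt]
      nlinarith
    have h4 : (1 : ℝ) ≤ ((A + B).card : ℝ) := by
      have : 0 < (A + B).card := Finset.card_pos.mpr ⟨a + b, Finset.add_mem_add ha hb⟩
      exact_mod_cast this
    have h5 : ∀ x : Fin 0 → ℕ, nz x = 0 := by intro x; simp [nz]
    have h6 : ∑ x ∈ A, (1 / 4 : ℝ) ^ (nz x) = 1 := by
      rw [hA', Finset.sum_singleton, h5, pow_zero]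
    have h7 : ∑ x ∈ B, (1 / 4 : ℝ) ^ (nz x) = 1 := by
      rw [hB', Finset.sum_singleton, h5, pow_zero]
    rw [h6, h7]
    nlinarith
  | succ n ih =>
    intro A B F G hA hB hF hG
    -- bound on first coordinates
    obtain ⟨N, hNA, hNB⟩ : ∃ N : ℕ, (∀ x ∈ A, x 0 < N) ∧ (∀ x ∈ B, x 0 < N) := by
      refine ⟨(A ∪ B).sup (fun x => x 0) + 1, ?_, ?_⟩
      · intro x hx
        exact Nat.lt_succ_of_le (Finset.le_sup (f := fun x : Fin (n + 1) → ℕ => x 0)
          (Finset.mem_union_left _ hx))
      · intro x hx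
        exact Nat.lt_succ_of_le (Finset.le_sup (f := fun x : Fin (n + 1) → ℕ => x 0)
          (Finset.mem_union_right _ hx))
    have hF0 : 0 < F := by
      obtain ⟨a, ha⟩ := hA
      refine lt_of_lt_of_le ?_ (hF a ha)
      exact Finset.prod_pos (fun i _ => by positivity)
    have hG0 : 0 < G := by
      obtain ⟨a, ha⟩ := hB
      refine lt_of_lt_of_le ?_ (hG a ha)
      exact Finset.prod_pos (fun i _ => by positivity)
    set c : ℕ → ℕ := fun k => ((A + B).filter (fun z => z 0 = k)).card with hc
    have h3 : ∀ i j : ℕ, (∑ y ∈ slice A i, (1 / 4 : ℝ) ^ (nz y))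
        * (∑ y ∈ slice B j, (1 / 4 : ℝ) ^ (nz y))
        * (Real.sqrt (i + 1) * Real.sqrt (j + 1)) ≤ (c (i + j) : ℝ) * Real.sqrt (F * G) := by
      intro i j
      have hi : (0 : ℝ) < (i : ℝ) + 1 := by positivity
      have hj : (0 : ℝ) < (j : ℝ) + 1 := by positivity
      rcases Finset.eq_empty_or_nonempty (slice A i) with hAe | hAn
      · rw [hAe]; simp only [Finset.sum_empty, zero_mul]; positivity
      rcases Finset.eq_empty_or_nonempty (slice B j) with hBe | hBn
      · rw [hBe]; simp only [Finset.sum_empty, zero_mul, mul_zero]; positivity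
      have h1 := ih (slice A i) (slice B j) (F / (i + 1)) (G / (j + 1)) hAn hBn
        (by
          intro x hx
          rw [mem_slice] at hx
          have := hF _ hx
          rw [Fin.prod_univ_succ] at this
          simp only [Fin.cons_zero, Fin.cons_succ] at this
          rw [le_div_iff₀ hi]
          linarith [mul_comm ((i : ℝ) + 1) (∏ i, ((x i : ℝ) + 1))])
        (by
          intro x hx
          rw [mem_slice] at hx
          have := hG _ hx
          rw [Fin.prod_univ_succ] at this
          simp only [Fin.cons_zero, Fin.cons_succ] at this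
          rw [le_div_iff₀ hj]
          linarith [mul_comm ((j : ℝ) + 1) (∏ i, ((x i : ℝ) + 1))])
      have h2 : (slice A i + slice B j).card ≤ c (i + j) := by
        apply Finset.card_le_card_of_injOn (fun z => (Fin.cons (i + j) z : Fin (n + 1) → ℕ))
        · intro z hz
          have hz' := Finset.mem_coe.mp hz
          rw [Finset.mem_add] at hz'
          obtain ⟨a, ha, b, hb, rfl⟩ := hz'
          rw [mem_slice] at ha hb
          refine Finset.mem_coe.mpr (Finset.mem_filter.mpr ⟨?_, by simp⟩)
          have : (Fin.cons (i + j) (a + b) : Fin (n + 1) → ℕ) = Fin.cons i a + Fin.cons j b := by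
            funext l
            refine Fin.cases ?_ (fun l => ?_) l <;> simp
          change (Fin.cons (i + j) (a + b) : Fin (n + 1) → ℕ) ∈ A + B
          rw [this]
          exact Finset.add_mem_add ha hb
        · intro z _ w _ hzw
          exact (Fin.cons_injective2 hzw).2
      have h4 : Real.sqrt (F / (i + 1) * (G / (j + 1))) * (Real.sqrt (i + 1) * Real.sqrt (j + 1))
          = Real.sqrt (F * G) := by
        rw [← Real.sqrt_mul hi.le, ← Real.sqrt_mul (by positivity)]
        congr 1
        field_simp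
      calc (∑ y ∈ slice A i, (1 / 4 : ℝ) ^ (nz y)) * (∑ y ∈ slice B j, (1 / 4 : ℝ) ^ (nz y))
            * (Real.sqrt (i + 1) * Real.sqrt (j + 1))
          ≤ (((slice A i + slice B j).card : ℝ) * Real.sqrt (F / (i + 1) * (G / (j + 1))))
            * (Real.sqrt (i + 1) * Real.sqrt (j + 1)) :=
            mul_le_mul_of_nonneg_right h1 (by positivity)
        _ = ((slice A i + slice B j).card : ℝ) * Real.sqrt (F * G) := by
            rw [mul_assoc, h4]
        _ ≤ (c (i + j) : ℝ) * Real.sqrt (F * G) := by
            apply mul_le_mul_of_nonneg_right _ (Real.sqrt_nonneg _)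
            exact_mod_cast h2
    have h5 := h N (fun i => ∑ y ∈ slice A i, (1 / 4 : ℝ) ^ (nz y))
      (fun j => ∑ y ∈ slice B j, (1 / 4 : ℝ) ^ (nz y))
      (fun k => (c k : ℝ) * Real.sqrt (F * G))
      (fun i => Finset.sum_nonneg (fun _ _ => by positivity))
      (fun i => Finset.sum_nonneg (fun _ _ => by positivity))
      (fun k => by positivity) h3
    rw [sum_slice A N hNA, sum_slice B N hNB]
    refine le_trans h5 ?_
    rw [← Finset.sum_mul]
    apply mul_le_mul_of_nonneg_right _ (Real.sqrt_nonneg _)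
    have h6 : ∑ k ∈ range (2 * N), c k ≤ (A + B).card := by
      have h7 := Finset.card_eq_sum_card_fiberwise (s := (A + B)) (t := range (2 * N))
        (f := fun z : Fin (n + 1) → ℕ => z 0) (by
          intro z hz
          have hz' := Finset.mem_coe.mp hz
          rw [Finset.mem_add] at hz'
          obtain ⟨a, ha, b, hb, rfl⟩ := hz'
          have h8 := hNA a ha
          have h9 := hNB b hb
          simp only [Finset.coe_range, Set.mem_Iio, Pi.add_apply]
          omega)
      rw [h7]
    exact_mod_cast h6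

end H947DS
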