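import Mathlib
import Pool.Agent.H947R2.DS.Stubs

set_option autoImplicit false
open Finset
open scoped Pointwise

namespace H947DS

/-- A Freiman homomorphism of order two on a box-anchored set extends to an affine map. -/
theorem ext_hom {Γ : Type*} [AddCommGroup Γ] {n : ℕ} (S : Set (Fin n → ℤ))
    (hbox : ∀ x ∈ S, ∀ y : Fin n → ℤ,
      (∀ i, (0 ≤ y i ∧ y i ≤ x i) ∨ (x i ≤ y i ∧ y i ≤ 0)) → y ∈ S)
    (f : (Fin n → ℤ) → Γ)
    (hf : ∀ a ∈ S, ∀ b ∈ S, ∀ c ∈ S, ∀ d ∈ S, a + b = c + d → f a + f b = f c + f d) :
    ∃ φ : (Fin n → ℤ) →+ Γ, ∀ x ∈ S, f x = f 0 + φ x := by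
  classical
  let v : Fin n → Γ := fun i =>
    if (Pi.single i 1 : Fin n → ℤ) ∈ S then f (Pi.single i 1) - f 0
    else f 0 - f (Pi.single i (-1))
  let φ : (Fin n → ℤ) →+ Γ :=
    { toFun := fun z => ∑ i, z i • v i
      map_zero' := by simp
      map_add' := by intro a b; simp [add_smul, Finset.sum_add_distrib] }
  have hφs : ∀ (i : Fin n) (s : ℤ), φ (Pi.single i s) = s • v i := by
    intro i s
    change ∑ j, (Pi.single i s : Fin n → ℤ) j • v j = s • v i
    rw [Finset.sum_eq_single i]
    · simp
    · intro j _ hj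
      simp [Pi.single_eq_of_ne hj]
    · simp
  have hsingle : ∀ x ∈ S, ∀ (i : Fin n) (s : ℤ), ((s = 1 ∧ 0 < x i) ∨ (s = -1 ∧ x i < 0)) →
      (Pi.single i s : Fin n → ℤ) ∈ S := by
    intro x hx i s hs
    apply hbox x hx
    intro j
    by_cases hj : j = i
    · subst hj
      rw [Pi.single_eq_same]
      rcases hs with ⟨rfl, h⟩ | ⟨rfl, h⟩
      · left; omega
      · right; omega
    · rw [Pi.single_eq_of_ne hj]
      omega
  have hval : ∀ x ∈ S, ∀ (i : Fin n) (s : ℤ), ((s = 1 ∧ 0 < x i) ∨ (s = -1 ∧ x i < 0)) →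
      f (Pi.single i s) = f 0 + s • v i := by
    intro x hx i s hs
    have hS := hsingle x hx i s hs
    have h0 : (0 : Fin n → ℤ) ∈ S := hbox x hx 0 (by intro j; simp only [Pi.zero_apply]; omega)
    rcases hs with ⟨rfl, h⟩ | ⟨rfl, h⟩
    · simp only [v, if_pos hS]
      simp
    · by_cases h1 : (Pi.single i 1 : Fin n → ℤ) ∈ S
      · simp only [v, if_pos h1]
        have := hf _ h1 _ hS 0 h0 0 h0 (by
          rw [← Pi.single_add]; simp)
        have h2 : f (Pi.single i (-1)) = f 0 + f 0 - f (Pi.single i 1) := by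
          rw [← this]; abel
        rw [h2]
        simp only [neg_smul, one_smul]
        abel
      · simp only [v, if_neg h1]
        simp only [neg_smul, one_smul]
        abel
  refine ⟨φ, ?_⟩
  have key : ∀ (m : ℕ) (x : Fin n → ℤ), x ∈ S → ∑ i, (x i).natAbs = m → f x = f 0 + φ x := by
    intro m
    induction m with
    | zero =>
      intro x hx hm
      have : x = 0 := by
        funext i
        have := (Finset.sum_eq_zero_iff.mp hm) i (Finset.mem_univ i)
        simpa using this
      subst this
      simp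
    | succ m ih =>
      intro x hx hm
      obtain ⟨i, hi⟩ : ∃ i, x i ≠ 0 := by
        by_contra hcon
        push Not at hcon
        have : ∑ i, (x i).natAbs = 0 := by
          apply Finset.sum_eq_zero
          intro i _
          simp [hcon i]
        omega
      obtain ⟨s, hs⟩ : ∃ s : ℤ, ((s = 1 ∧ 0 < x i) ∨ (s = -1 ∧ x i < 0)) := by
        rcases lt_or_gt_of_ne hi with h | h
        · exact ⟨-1, Or.inr ⟨rfl, h⟩⟩
        · exact ⟨1, Or.inl ⟨rfl, h⟩⟩
      have hS := hsingle x hx i s hs
      have hv := hval x hx i s hs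
      have h0 : (0 : Fin n → ℤ) ∈ S := hbox x hx 0 (by intro j; simp only [Pi.zero_apply]; omega)
      set x' : Fin n → ℤ := x - Pi.single i s with hx'
      have hx'i : x' i = x i - s := by simp [hx']
      have hx'j : ∀ j, j ≠ i → x' j = x j := by
        intro j hj
        simp [hx', Pi.single_eq_of_ne hj]
      have hx'S : x' ∈ S := by
        apply hbox x hx
        intro j
        by_cases hj : j = i
        · subst hj
          rw [hx'i]
          rcases hs with ⟨rfl, h⟩ | ⟨rfl, h⟩
          · left; omega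
          · right; omega
        · rw [hx'j j hj]
          omega
      have hsum : ∑ j, (x' j).natAbs = m := by
        have h1 : ∑ j, (x j).natAbs = ∑ j, (x' j).natAbs + 1 := by
          rw [← Finset.add_sum_erase _ (fun j => (x j).natAbs) (Finset.mem_univ i),
            ← Finset.add_sum_erase _ (fun j => (x' j).natAbs) (Finset.mem_univ i)]
          have h2 : ∑ j ∈ Finset.univ.erase i, (x j).natAbs
              = ∑ j ∈ Finset.univ.erase i, (x' j).natAbs := by
            apply Finset.sum_congr rfl
            intro j hj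
            rw [hx'j j (Finset.ne_of_mem_erase hj)]
          rw [h2]
          have h3 : (x i).natAbs = (x' i).natAbs + 1 := by
            rw [hx'i]
            rcases hs with ⟨rfl, h⟩ | ⟨rfl, h⟩ <;> omega
          omega
        omega
      have ih' := ih x' hx'S hsum
      have h4 := hf x hx 0 h0 x' hx'S _ hS (by simp [hx'])
      have h5 : φ x = φ x' + φ (Pi.single i s) := by
        rw [← map_add]; congr 1; simp [hx']
      rw [h5, hφs, ← add_assoc, ← ih']
      have h6 : f x = f x' + f (Pi.single i s) - f 0 := by rw [← h4]; abel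
      rw [h6, hv]; abel
  intro x hx
  exact key _ x hx rfl

end H947DS
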