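import Mathlib
import Pool.Agent.H947R2.DS.Stubs
import Pool.Agent.H947R2.DS.Ext

set_option autoImplicit false
open Finset
open scoped Pointwise

namespace H947DS

theorem final (hB : St_BOX) (hC : St_COV) (hP : St_PROG) {Γ : Type*} [AddCommGroup Γ]
    [DecidableEq Γ] (K : ℝ) (A : Finset Γ) (hA : A.Nonempty)
    (hK : ((A + A).card : ℝ) ≤ K * (A.card : ℝ)) (n : ℕ) (S : Finset (Fin n → ℤ))
    (hbox : ∀ x ∈ S, ∀ y : Fin n → ℤ,
      (∀ i, (0 ≤ y i ∧ y i ≤ x i) ∨ (x i ≤ y i ∧ y i ≤ 0)) → y ∈ S)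
    (f : (Fin n → ℤ) → Γ)
    (hf : IsAddFreimanIso 2 (S : Set (Fin n → ℤ)) (A : Set Γ) f) :
    ∃ (d : ℕ) (B : Set (Fin d → ℝ)) (ψ : (Fin d → ℤ) →+ Γ) (T : Finset Γ),
      (2 : ℝ) ^ d ≤ 2 * K ∧
      Convex ℝ B ∧ IsCompact B ∧ (interior B).Nonempty ∧ (∀ x ∈ B, -x ∈ B) ∧
      {x : Fin d → ℤ | (fun i => (x i : ℝ)) ∈ B}.Finite ∧
      {x : Fin d → ℤ | (fun i => (x i : ℝ)) ∈ B}.ncard ≤ A.card ∧
      (T.card : ℝ) ≤ 1024 * K ^ 10 ∧
      ∀ a ∈ A, ∃ t ∈ T, ∃ x : Fin d → ℤ, (fun i => (x i : ℝ)) ∈ B ∧ a = t + ψ x := by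
  classical
  rw [isAddFreimanIso_two] at hf
  obtain ⟨hbij, hadd⟩ := hf
  obtain ⟨φ, hφ⟩ := ext_hom (S : Set (Fin n → ℤ)) (fun x hx y hy => by
    have := hbox x (by exact_mod_cast hx) y hy
    exact_mod_cast this) f (fun a ha b hb c hc d hd h => (hadd a ha b hb c hc d hd).2 h)
  -- cardinalities
  have himg : S.image f = A := by
    apply Finset.coe_injective
    rw [Finset.coe_image]
    exact hbij.image_eq
  have hcard : S.card = A.card := by
    rw [← himg, Finset.card_image_of_injOn hbij.injOn]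
  have hSne : S.Nonempty := by
    rw [← Finset.card_pos, hcard, Finset.card_pos]; exact hA
  have hcard2 : (S + S).card ≤ (A + A).card := by
    apply Finset.card_le_card_of_injOn (fun z => f 0 + f 0 + φ z)
    · intro z hz
      have hz' := Finset.mem_coe.mp hz
      rw [Finset.mem_add] at hz'
      obtain ⟨a, ha, b, hb, rfl⟩ := hz'
      have h1 := hφ a (by exact_mod_cast ha)
      have h2 := hφ b (by exact_mod_cast hb)
      have h3 : f 0 + f 0 + φ (a + b) = f a + f b := by
        rw [h1, h2, map_add]; abel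
      change f 0 + f 0 + φ (a + b) ∈ ((A + A : Finset Γ) : Set Γ)
      rw [h3]
      refine Finset.mem_coe.mpr (Finset.add_mem_add ?_ ?_)
      · have := hbij.mapsTo (Finset.mem_coe.mpr ha); exact_mod_cast this
      · have := hbij.mapsTo (Finset.mem_coe.mpr hb); exact_mod_cast this
    · intro z hz w hw hzw
      have hz' := Finset.mem_coe.mp hz
      have hw' := Finset.mem_coe.mp hw
      rw [Finset.mem_add] at hz' hw'
      obtain ⟨a, ha, b, hb, rfl⟩ := hz'
      obtain ⟨c, hc, d, hd, rfl⟩ := hw'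
      have h1 := hφ a (by exact_mod_cast ha)
      have h2 := hφ b (by exact_mod_cast hb)
      have h3 := hφ c (by exact_mod_cast hc)
      have h4 := hφ d (by exact_mod_cast hd)
      apply (hadd a (by exact_mod_cast ha) b (by exact_mod_cast hb) c (by exact_mod_cast hc) d
        (by exact_mod_cast hd)).1
      rw [h1, h2, h3, h4]
      dsimp only at hzw
      rw [map_add, map_add] at hzw
      have h5 : f 0 + φ a + (f 0 + φ b) = f 0 + f 0 + (φ a + φ b) := by abel
      have h6 : f 0 + φ c + (f 0 + φ d) = f 0 + f 0 + (φ c + φ d) := by abel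
      rw [h5, h6, hzw]
  have hKS : ((S + S).card : ℝ) ≤ K * S.card := by
    rw [hcard]
    refine le_trans ?_ hK
    exact_mod_cast hcard2
  obtain ⟨x, hxS, hxd, hxc⟩ := hB n S K hSne hbox hKS
  obtain ⟨T, hT, hcov⟩ := hC n S K x hSne hbox hKS hxS hxd hxc
  obtain ⟨B, ψ, h1, h2, h3, h4, hfin, h5, h6⟩ := hP n x
  refine ⟨nzZ x, B, φ.comp ψ, T.image (fun t => f 0 + φ t), hxd, h1, h2, h3, h4, hfin, ?_, ?_, ?_⟩
  · -- volume
    have hb : (Fintype.piFinset (fun i => Finset.uIcc 0 (x i))) ⊆ S := by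
      intro y hy
      rw [Fintype.mem_piFinset] at hy
      apply hbox x hxS
      intro i
      have := hy i
      rw [Finset.mem_uIcc] at this
      rcases le_total 0 (x i) with h | h
      · left
        constructor
        · have := this.1; rwa [inf_eq_left.mpr h] at this
        · have := this.2; rwa [sup_eq_right.mpr h] at this
      · right
        constructor
        · have := this.1; rwa [inf_eq_right.mpr h] at this
        · have := this.2; rwa [sup_eq_left.mpr h] at this
    have hb2 : (Fintype.piFinset (fun i => Finset.uIcc 0 (x i))).card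
        = ∏ i, ((x i).natAbs + 1) := by
      rw [Fintype.card_piFinset]
      apply Finset.prod_congr rfl
      intro i _
      rw [Int.card_uIcc]
      omega
    have hb3 := Finset.card_le_card hb
    rw [hb2, hcard] at hb3
    have h7 : (∏ i, (|x i| + 1) : ℤ) = ((∏ i, ((x i).natAbs + 1) : ℕ) : ℤ) := by
      push_cast
      apply Finset.prod_congr rfl
      intro i _
      rfl
    rw [h7] at h5
    have h8 : {z : Fin (nzZ x) → ℤ | (fun i => (z i : ℝ)) ∈ B}.ncard
        ≤ ∏ i, ((x i).natAbs + 1) := by exact_mod_cast h5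
    exact h8.trans hb3
  · refine le_trans ?_ hT
    exact_mod_cast Finset.card_image_le
  · intro a ha
    have ha' : a ∈ f '' (S : Set (Fin n → ℤ)) := by
      rw [hbij.image_eq]; exact_mod_cast ha
    obtain ⟨s, hs, rfl⟩ := ha'
    obtain ⟨t, ht, hst⟩ := hcov s (by exact_mod_cast hs)
    obtain ⟨z, hz, hz2⟩ := h6 (s - t) (fun i => by simpa using hst i)
    refine ⟨f 0 + φ t, Finset.mem_image_of_mem _ ht, z, hz, ?_⟩
    rw [hφ s hs, AddMonoidHom.comp_apply, hz2, map_sub]
    abel

end H947DS
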