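import Mathlib
import Pool.Agent.H947R2.DS.Stubs

set_option autoImplicit false
open Finset
open scoped Pointwise

namespace H947DS

theorem I_proof : St_I := by
  classical
  intro n S hS
  let T : (Fin n → ℤ) → Finset (Fin n → ℤ) := fun x =>
    Fintype.piFinset (fun i => ({x i, x i - Int.sign (x i)} : Finset ℤ))
  have hTmem : ∀ x y, y ∈ T x ↔ ∀ i, y i = x i ∨ y i = x i - Int.sign (x i) := by
    intro x y
    simp [T, Fintype.mem_piFinset]
  have hTcard : ∀ x, (T x).card = 2 ^ (nzZ x) := by
    intro x
    simp only [T]
    rw [Fintype.card_piFinset]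
    unfold nzZ
    rw [← Finset.prod_const, Finset.prod_filter]
    apply Finset.prod_congr rfl
    intro i _
    by_cases h : x i = 0
    · simp [h]
    · simp only [h, ne_eq, not_false_eq_true, if_true]
      apply Finset.card_pair
      intro hcon
      have h1 : Int.sign (x i) = 0 := by linarith
      rw [Int.sign_eq_zero_iff_zero] at h1
      exact h h1
  have hTS : ∀ x ∈ S, ∀ y ∈ T x, y ∈ S := by
    intro x hx y hy
    rw [hTmem] at hy
    apply hS x hx
    intro i
    rcases hy i with h | h
    · rw [h]; omega
    · rw [h]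
      rcases lt_trichotomy (x i) 0 with h0 | h0 | h0
      · rw [Int.sign_eq_neg_one_of_neg h0]; omega
      · rw [h0]; simp
      · rw [Int.sign_eq_one_of_pos h0]; omega
  have hdisj : ∀ x y : Fin n → ℤ, ∀ x' ∈ T x, ∀ y' ∈ T y, x + x' = y + y' → x = y := by
    intro x y x' hx' y' hy' h
    rw [hTmem] at hx' hy'
    funext i
    have hi := congrFun h i
    simp only [Pi.add_apply] at hi
    have h1 := hx' i
    have h2 := hy' i
    rcases lt_trichotomy (x i) 0 with a | a | a <;> rcases lt_trichotomy (y i) 0 with b | b | b
    all_goals first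
      | rw [Int.sign_eq_neg_one_of_neg a] at h1
      | rw [a, Int.sign_zero] at h1
      | rw [Int.sign_eq_one_of_pos a] at h1
    all_goals first
      | rw [Int.sign_eq_neg_one_of_neg b] at h2
      | rw [b, Int.sign_zero] at h2
      | rw [Int.sign_eq_one_of_pos b] at h2
    all_goals omega
  have hbi : (S.biUnion (fun x => (T x).image (fun z => x + z))).card = ∑ x ∈ S, 2 ^ (nzZ x) := by
    rw [Finset.card_biUnion]
    · apply Finset.sum_congr rfl
      intro x _
      rw [Finset.card_image_of_injective _ (add_right_injective x), hTcard]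
    · intro x _ y _ hxy
      rw [Function.onFun, Finset.disjoint_left]
      intro z hz hz'
      rw [Finset.mem_image] at hz hz'
      obtain ⟨x', hx', h1⟩ := hz
      obtain ⟨y', hy', h2⟩ := hz'
      exact hxy (hdisj x y x' hx' y' hy' (h1.trans h2.symm))
  rw [← hbi]
  apply Finset.card_le_card
  intro z hz
  rw [Finset.mem_biUnion] at hz
  obtain ⟨x, hx, hz⟩ := hz
  rw [Finset.mem_image] at hz
  obtain ⟨x', hx', rfl⟩ := hz
  exact Finset.add_mem_add hx (hTS x hx x' hx')

end H947DS
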