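import Mathlib
import Pool.Agent.H947R2.DS.Stubs

set_option autoImplicit false
open Finset
open scoped Pointwise

namespace H947DS

theorem u_nonneg (i : ℕ) : 0 ≤ u i := by unfold u; split_ifs <;> norm_num

/-- `∑_{x=1}^{N} 1/√x ≤ 2√N` -/
theorem sum_inv_sqrt (N : ℕ) : ∑ i ∈ range N, 1 / Real.sqrt (i + 1) ≤ 2 * Real.sqrt N := by
  induction N with
  | zero => simp
  | succ N ih =>
    rw [Finset.sum_range_succ]
    have h1 : 0 < Real.sqrt ((N : ℝ) + 1) := Real.sqrt_pos.mpr (by positivity)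
    have h2 : Real.sqrt ((N : ℝ) + 1) ^ 2 = (N : ℝ) + 1 := Real.sq_sqrt (by positivity)
    have h3 : Real.sqrt (N : ℝ) ^ 2 = (N : ℝ) := Real.sq_sqrt (by positivity)
    have h4 : 0 ≤ Real.sqrt (N : ℝ) := Real.sqrt_nonneg _
    have h5 : 1 / Real.sqrt ((N : ℝ) + 1) ≤ 2 * Real.sqrt ((N : ℝ) + 1) - 2 * Real.sqrt N := by
      rw [div_le_iff₀ h1]
      nlinarith [sq_nonneg (Real.sqrt ((N : ℝ) + 1) - Real.sqrt N)]
    push_cast
    linarith

theorem W_proof : St_W := by
  intro k
  rw [Finset.Nat.sum_antidiagonal_eq_sum_range_succ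
    (fun i j => u i * u j / (Real.sqrt (i + 1) * Real.sqrt (j + 1)))]
  rcases Nat.eq_zero_or_pos k with rfl | hk
  · simp [u]
  -- m = k + 2
  set m : ℝ := (k : ℝ) + 2 with hm
  have hkr : (1 : ℝ) ≤ k := by exact_mod_cast hk
  have hm0 : 0 < m := by positivity
  have hs2 : 0 < Real.sqrt (2 / m) := Real.sqrt_pos.mpr (by positivity)
  -- pointwise bound
  have key : ∀ i ∈ range (k + 1), u i * u (k - i) / (Real.sqrt (i + 1) *
      Real.sqrt (((k - i : ℕ) : ℝ) + 1)) ≤
      (if i = 0 then 1 / 4 / Real.sqrt 2 else 0) + (if i = k then 1 / 4 / Real.sqrt 2 else 0) +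
      (if i = 0 ∨ i = k then 0 else
        1 / 16 * Real.sqrt (2 / m) * (1 / Real.sqrt (i + 1) +
          1 / Real.sqrt (((k - i : ℕ) : ℝ) + 1))) := by
    intro i hi
    rw [Finset.mem_range] at hi
    have hsk : Real.sqrt 2 ≤ Real.sqrt ((k : ℝ) + 1) := Real.sqrt_le_sqrt (by linarith)
    have hs20 : 0 < Real.sqrt 2 := Real.sqrt_pos.mpr (by norm_num)
    by_cases h0 : i = 0
    · subst h0
      have hk0 : (0 : ℕ) ≠ k := by omega
      have hk1 : k ≠ 0 := by omega
      simp only [u, hk0, hk1, Nat.sub_zero, if_true, if_false, true_or, Nat.cast_zero, zero_add,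
        Real.sqrt_one, one_mul, add_zero]
      exact div_le_div_of_nonneg_left (by norm_num) hs20 hsk
    by_cases h1 : i = k
    · subst h1
      have hk1 : i ≠ 0 := by omega
      simp only [u, hk1, Nat.sub_self, if_true, if_false, or_true, Nat.cast_zero, zero_add,
        Real.sqrt_one, mul_one, add_zero]
      exact div_le_div_of_nonneg_left (by norm_num) hs20 hsk
    have h2 : k - i ≠ 0 := by omega
    simp only [u, h0, h1, h2, if_false, or_self, zero_add]
    have hx : (0 : ℝ) < (i : ℝ) + 1 := by positivity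
    have hy : (0 : ℝ) < ((k - i : ℕ) : ℝ) + 1 := by positivity
    have hxy : ((i : ℝ) + 1) + (((k - i : ℕ) : ℝ) + 1) = m := by
      rw [Nat.cast_sub (by omega)]; rw [hm]; ring
    set x : ℝ := (i : ℝ) + 1
    set y : ℝ := ((k - i : ℕ) : ℝ) + 1
    have hsx : 0 < Real.sqrt x := Real.sqrt_pos.mpr hx
    have hsy : 0 < Real.sqrt y := Real.sqrt_pos.mpr hy
    -- 1/(√x √y) ≤ √(2/m)(1/√x + 1/√y)
    have hmain : 1 / (Real.sqrt x * Real.sqrt y) ≤
        Real.sqrt (2 / m) * (1 / Real.sqrt x + 1 / Real.sqrt y) := by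
      rcases le_total x y with h | h
      · have h3 : 1 / Real.sqrt y ≤ Real.sqrt (2 / m) := by
          rw [one_div, ← Real.sqrt_inv]
          apply Real.sqrt_le_sqrt
          rw [inv_eq_one_div, div_le_div_iff₀ hy hm0]
          linarith
        have h4 : 1 / (Real.sqrt x * Real.sqrt y) = 1 / Real.sqrt y * (1 / Real.sqrt x) := by
          field_simp
        rw [h4]
        calc 1 / Real.sqrt y * (1 / Real.sqrt x)
            ≤ Real.sqrt (2 / m) * (1 / Real.sqrt x) :=
              mul_le_mul_of_nonneg_right h3 (by positivity)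
          _ ≤ Real.sqrt (2 / m) * (1 / Real.sqrt x + 1 / Real.sqrt y) :=
              mul_le_mul_of_nonneg_left (by
                have : 0 ≤ 1 / Real.sqrt y := by positivity
                linarith) hs2.le
      · have h3 : 1 / Real.sqrt x ≤ Real.sqrt (2 / m) := by
          rw [one_div, ← Real.sqrt_inv]
          apply Real.sqrt_le_sqrt
          rw [inv_eq_one_div, div_le_div_iff₀ hx hm0]
          linarith
        have h4 : 1 / (Real.sqrt x * Real.sqrt y) = 1 / Real.sqrt x * (1 / Real.sqrt y) := by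
          field_simp
        rw [h4]
        calc 1 / Real.sqrt x * (1 / Real.sqrt y)
            ≤ Real.sqrt (2 / m) * (1 / Real.sqrt y) :=
              mul_le_mul_of_nonneg_right h3 (by positivity)
          _ ≤ Real.sqrt (2 / m) * (1 / Real.sqrt x + 1 / Real.sqrt y) :=
              mul_le_mul_of_nonneg_left (by
                have : 0 ≤ 1 / Real.sqrt x := by positivity
                linarith) hs2.le
    calc (1 : ℝ) / 4 * (1 / 4) / (Real.sqrt x * Real.sqrt y)
        = 1 / 16 * (1 / (Real.sqrt x * Real.sqrt y)) := by ring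
      _ ≤ 1 / 16 * (Real.sqrt (2 / m) * (1 / Real.sqrt x + 1 / Real.sqrt y)) :=
          mul_le_mul_of_nonneg_left hmain (by norm_num)
      _ = _ := by ring
  refine le_trans (Finset.sum_le_sum key) ?_
  rw [Finset.sum_add_distrib, Finset.sum_add_distrib]
  have e1 : ∑ i ∈ range (k + 1), (if i = 0 then 1 / 4 / Real.sqrt 2 else 0)
      = 1 / 4 / Real.sqrt 2 := by
    rw [Finset.sum_ite_eq' (range (k + 1)) 0]; simp
  have e2 : ∑ i ∈ range (k + 1), (if i = k then 1 / 4 / Real.sqrt 2 else 0)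
      = 1 / 4 / Real.sqrt 2 := by
    rw [Finset.sum_ite_eq' (range (k + 1)) k]; simp
  rw [e1, e2]
  -- middle sum
  have e3 : ∑ i ∈ range (k + 1), (if i = 0 ∨ i = k then (0 : ℝ) else
        1 / 16 * Real.sqrt (2 / m) * (1 / Real.sqrt (i + 1) +
          1 / Real.sqrt (((k - i : ℕ) : ℝ) + 1)))
      ≤ 1 / 16 * Real.sqrt (2 / m) * (2 * (2 * Real.sqrt m)) := by
    calc _ ≤ ∑ i ∈ range (k + 1), 1 / 16 * Real.sqrt (2 / m) * (1 / Real.sqrt (i + 1) +
          1 / Real.sqrt (((k - i : ℕ) : ℝ) + 1)) := by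
            apply Finset.sum_le_sum
            intro i _
            split_ifs
            · positivity
            · exact le_refl _
      _ = 1 / 16 * Real.sqrt (2 / m) * (∑ i ∈ range (k + 1), 1 / Real.sqrt ((i : ℝ) + 1) +
          ∑ i ∈ range (k + 1), 1 / Real.sqrt (((k - i : ℕ) : ℝ) + 1)) := by
            rw [← Finset.mul_sum, Finset.sum_add_distrib]
      _ = 1 / 16 * Real.sqrt (2 / m) * (2 * ∑ i ∈ range (k + 1), 1 / Real.sqrt ((i : ℝ) + 1)) := by
            congr 1
            have := Finset.sum_range_reflect (fun i : ℕ => 1 / Real.sqrt ((i : ℝ) + 1)) (k + 1)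
            simp only [Nat.add_sub_cancel] at this
            rw [this]; ring
      _ ≤ _ := by
            apply mul_le_mul_of_nonneg_left _ (by positivity)
            have h6 := sum_inv_sqrt (k + 1)
            have h7 : Real.sqrt ((k + 1 : ℕ) : ℝ) ≤ Real.sqrt m := by
              apply Real.sqrt_le_sqrt
              push_cast
              rw [hm]; linarith
            linarith
  have e4 : Real.sqrt (2 / m) * Real.sqrt m = Real.sqrt 2 := by
    rw [← Real.sqrt_mul (by positivity)]
    congr 1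
    field_simp
  have e5 : 1 / 16 * Real.sqrt (2 / m) * (2 * (2 * Real.sqrt m)) = 1 / 4 * Real.sqrt 2 := by
    rw [← e4]; ring
  rw [e5] at e3
  have h8 : Real.sqrt 2 ^ 2 = 2 := Real.sq_sqrt (by norm_num)
  have h9 : 0 < Real.sqrt 2 := Real.sqrt_pos.mpr (by norm_num)
  have h10 : 1 / 4 / Real.sqrt 2 = 1 / 8 * Real.sqrt 2 := by
    field_simp
    rw [h8]; norm_num
  have h11 : Real.sqrt 2 ≤ 3 / 2 := by
    rw [Real.sqrt_le_left (by norm_num)]; norm_num
  rw [h10]
  linarith

theorem ONE_proof (hW : St_W) : St_ONE := by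
  intro N a b M ha hb hM h
  rw [Finset.sum_mul_sum, ← Finset.sum_product']
  -- pointwise
  have h1 : ∀ p ∈ range N ×ˢ range N, u p.1 * a p.1 * (u p.2 * b p.2) ≤
      u p.1 * u p.2 / (Real.sqrt (p.1 + 1) * Real.sqrt (p.2 + 1)) * M (p.1 + p.2) := by
    intro p _
    have hp : 0 < Real.sqrt ((p.1 : ℝ) + 1) * Real.sqrt ((p.2 : ℝ) + 1) :=
      mul_pos (Real.sqrt_pos.mpr (by positivity)) (Real.sqrt_pos.mpr (by positivity))
    have h2 := h p.1 p.2
    rw [div_mul_eq_mul_div, le_div_iff₀ hp]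
    calc u p.1 * a p.1 * (u p.2 * b p.2) * (Real.sqrt (p.1 + 1) * Real.sqrt (p.2 + 1))
        = u p.1 * u p.2 * (a p.1 * b p.2 * (Real.sqrt (p.1 + 1) * Real.sqrt (p.2 + 1))) := by ring
      _ ≤ u p.1 * u p.2 * M (p.1 + p.2) :=
          mul_le_mul_of_nonneg_left h2 (mul_nonneg (u_nonneg _) (u_nonneg _))
  refine le_trans (Finset.sum_le_sum h1) ?_
  rw [← Finset.sum_fiberwise_of_maps_to (g := fun p : ℕ × ℕ => p.1 + p.2) (t := range (2 * N))
    (fun p hp => by
      rw [Finset.mem_product, Finset.mem_range, Finset.mem_range] at hp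
      rw [Finset.mem_range]
      omega)]
  apply Finset.sum_le_sum
  intro k _
  calc ∑ p ∈ (range N ×ˢ range N).filter (fun p => p.1 + p.2 = k),
        u p.1 * u p.2 / (Real.sqrt (p.1 + 1) * Real.sqrt (p.2 + 1)) * M (p.1 + p.2)
      = (∑ p ∈ (range N ×ˢ range N).filter (fun p => p.1 + p.2 = k),
        u p.1 * u p.2 / (Real.sqrt (p.1 + 1) * Real.sqrt (p.2 + 1))) * M k := by
        rw [Finset.sum_mul]
        apply Finset.sum_congr rfl
        intro p hp
        rw [Finset.mem_filter] at hp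
        rw [hp.2]
    _ ≤ (∑ p ∈ HasAntidiagonal.antidiagonal k,
        u p.1 * u p.2 / (Real.sqrt (p.1 + 1) * Real.sqrt (p.2 + 1))) * M k := by
        apply mul_le_mul_of_nonneg_right _ (hM k)
        apply Finset.sum_le_sum_of_subset_of_nonneg
        · intro p hp
          rw [Finset.mem_filter] at hp
          rw [HasAntidiagonal.mem_antidiagonal]
          exact hp.2
        · intro p _ _
          exact div_nonneg (mul_nonneg (u_nonneg _) (u_nonneg _)) (by positivity)
    _ ≤ 1 * M k := mul_le_mul_of_nonneg_right (hW k) (hM k)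
    _ = M k := one_mul _

end H947DS
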